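import Pool.Agent.H62.PR.Stm

/-!
# Project PR, part MC (helper72): the Markov chain of twists
-/

set_option autoImplicit false
set_option linter.all false

open Finset
open scoped BigOperators symmDiff

namespace Pool.Agent.H72.PR.MC

open Pool.Agent.H62.PR (Cd LJ S_EUL S_MC)

noncomputable section

/-! ### Part C: real analysis -/

/-- the transition ratio -/
def rr (i : ℕ) : ℝ := 2 / (2 ^ (i + 1) - 1)

/-- the products -/
def RR (d : ℕ) : ℝ := ∏ i ∈ Finset.range d, rr i

def c0 : ℝ := ⨅ N : ℕ, ∏ j ∈ Finset.range N, (1 + (1 / 2 : ℝ) ^ j)⁻¹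

theorem Cd_eq (d : ℕ) : Cd d = c0 * RR d := rfl

theorem two_pow_ge (i : ℕ) : (2 : ℝ) ≤ 2 ^ (i + 1) := by
  calc (2 : ℝ) = 2 ^ 1 := by norm_num
    _ ≤ 2 ^ (i + 1) := pow_le_pow_right₀ (by norm_num) (by omega)

theorem rr_pos (i : ℕ) : 0 < rr i := by
  have := two_pow_ge i
  unfold rr
  apply div_pos <;> linarith

theorem rr_le (i : ℕ) : rr (i + 1) ≤ 2 / 3 := by
  have h : (4 : ℝ) ≤ 2 ^ (i + 1 + 1) := by
    calc (4 : ℝ) = 2 ^ 2 := by norm_num
      _ ≤ 2 ^ (i + 1 + 1) := pow_le_pow_right₀ (by norm_num) (by omega)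
  unfold rr
  rw [div_le_div_iff₀ (by linarith) (by norm_num)]
  linarith

theorem rr_mul (i : ℕ) : rr i * (1 - (1 / 2 : ℝ) ^ (i + 1)) = (1 / 2 : ℝ) ^ i := by
  have h := two_pow_ge i
  have h2 : (1 / 2 : ℝ) ^ i = 2 * (1 / 2 : ℝ) ^ (i + 1) := by
    rw [pow_succ]; ring
  have h3 : (1 / 2 : ℝ) ^ (i + 1) * 2 ^ (i + 1) = 1 := by
    rw [← mul_pow]; norm_num
  have h4 : (2 : ℝ) ^ (i + 1) - 1 ≠ 0 := by linarith
  rw [h2]
  unfold rr
  rw [div_mul_eq_mul_div, div_eq_iff h4]
  linear_combination (-2 : ℝ) * h3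

theorem RR_pos (d : ℕ) : 0 < RR d := Finset.prod_pos fun i _ => rr_pos i

theorem c0_nonneg : 0 ≤ c0 := by
  apply Real.iInf_nonneg
  intro N
  apply Finset.prod_nonneg
  intro j _
  positivity

theorem Cd_nonneg (d : ℕ) : 0 ≤ Cd d := by
  rw [Cd_eq]; exact mul_nonneg c0_nonneg (RR_pos d).le

theorem partC (p : ℕ → ℝ) (hp : HasSum p 1) (E : ℝ)
    (hE : ∀ N, ∑ d ∈ range N, |p d * (1 / 2) ^ d - p (d + 1) * (1 - (1 / 2) ^ (d + 1))| ≤ E)
    (hC : HasSum Cd 1) : ∀ d, |p d - Cd d| ≤ 12 * E := by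
  have hE0 : 0 ≤ E := by simpa using hE 0
  have hc0 : c0 ≠ 0 := by
    intro h
    have h1 : Cd = fun _ => 0 := by
      funext d; rw [Cd_eq, h, zero_mul]
    rw [h1] at hC
    have := hC.unique hasSum_zero
    norm_num at this
  have hR : HasSum RR (1 / c0) := by
    have h2 := hC.mul_left c0⁻¹
    have h3 : (fun d => c0⁻¹ * Cd d) = RR := by
      funext d; rw [Cd_eq]; field_simp
    rw [h3] at h2
    simpa [one_div] using h2
  set f : ℕ → ℝ := fun d => p d - RR d * p 0 with hf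
  set er : ℕ → ℝ := fun d => |p d * (1 / 2) ^ d - p (d + 1) * (1 - (1 / 2) ^ (d + 1))| with her
  have hf0 : f 0 = 0 := by simp [hf, RR]
  have hstep : ∀ d, |f (d + 1)| ≤ 2 / 3 * |f d| + 2 * er d := by
    intro d
    have h1 : f (d + 1) = rr d * f d + (p (d + 1) - rr d * p d) := by
      simp only [hf, RR, Finset.prod_range_succ]; ring
    have hhalf : (1 / 2 : ℝ) ^ (d + 1) ≤ 1 / 2 := by
      calc (1 / 2 : ℝ) ^ (d + 1) ≤ (1 / 2) ^ 1 :=
            pow_le_pow_of_le_one (by norm_num) (by norm_num) (by omega)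
        _ = 1 / 2 := by norm_num
    have h2 : |p (d + 1) - rr d * p d| ≤ 2 * er d := by
      have h3 : er d = |p (d + 1) - rr d * p d| * (1 - (1 / 2) ^ (d + 1)) := by
        simp only [her]
        rw [← rr_mul d]
        rw [show p d * (rr d * (1 - (1 / 2) ^ (d + 1))) - p (d + 1) * (1 - (1 / 2) ^ (d + 1))
          = -((p (d + 1) - rr d * p d) * (1 - (1 / 2) ^ (d + 1))) by ring, abs_neg, abs_mul,
          abs_of_nonneg (a := (1 - (1 / 2 : ℝ) ^ (d + 1))) (by linarith)]
      rw [h3]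
      nlinarith [abs_nonneg (p (d + 1) - rr d * p d)]
    have h4 : |rr d * f d| ≤ 2 / 3 * |f d| := by
      rcases d with _ | d
      · rw [hf0]; simp
      · rw [abs_mul, abs_of_pos (rr_pos _)]
        exact mul_le_mul_of_nonneg_right (rr_le d) (abs_nonneg _)
    calc |f (d + 1)| = |rr d * f d + (p (d + 1) - rr d * p d)| := by rw [h1]
      _ ≤ |rr d * f d| + |p (d + 1) - rr d * p d| := abs_add_le _ _
      _ ≤ _ := by linarith
  have hsum : ∀ N, ∑ d ∈ range N, |f d| ≤ 6 * E := by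
    intro N
    rcases N with _ | N
    · simpa using by linarith
    · have h1 : ∑ d ∈ range (N + 1), |f d| = ∑ d ∈ range N, |f (d + 1)| := by
        rw [Finset.sum_range_succ', hf0]; simp
      have h2 : ∑ d ∈ range N, |f (d + 1)| ≤
          2 / 3 * ∑ d ∈ range N, |f d| + 2 * ∑ d ∈ range N, er d := by
        rw [Finset.mul_sum, Finset.mul_sum, ← Finset.sum_add_distrib]
        exact Finset.sum_le_sum fun d _ => hstep d
      have h3 : ∑ d ∈ range N, |f d| ≤ ∑ d ∈ range (N + 1), |f d| := by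
        rw [Finset.sum_range_succ]; linarith [abs_nonneg (f N)]
      have h4 := hE N
      have h5 : ∑ d ∈ range N, er d ≤ E := h4
      linarith
  have hfs : HasSum f (1 - 1 / c0 * p 0) := hp.sub (hR.mul_right (p 0))
  have hbound : |1 - 1 / c0 * p 0| ≤ 6 * E := by
    have ht := hfs.tendsto_sum_nat
    have ht2 := ht.abs
    refine le_of_tendsto' ht2 fun N => ?_
    exact (Finset.abs_sum_le_sum_abs _ _).trans (hsum N)
  intro d
  have hCle : Cd d ≤ 1 := by
    have := hC.summable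
    calc Cd d ≤ ∑' d, Cd d := this.le_tsum d fun j _ => Cd_nonneg j
      _ = 1 := hC.tsum_eq
  have h1 : |f d| ≤ 6 * E := by
    have := hsum (d + 1)
    have h2 : |f d| ≤ ∑ d ∈ range (d + 1), |f d| :=
      Finset.single_le_sum (f := fun d => |f d|) (fun i _ => abs_nonneg _) (by simp)
    linarith
  have h2 : p d - Cd d = f d - Cd d * (1 - 1 / c0 * p 0) := by
    simp only [hf, Cd_eq]; field_simp; ring
  rw [h2]
  calc |f d - Cd d * (1 - 1 / c0 * p 0)| ≤ |f d| + |Cd d * (1 - 1 / c0 * p 0)| := abs_sub _ _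
    _ = |f d| + Cd d * |1 - 1 / c0 * p 0| := by rw [abs_mul, abs_of_nonneg (Cd_nonneg d)]
    _ ≤ 6 * E + 1 * (6 * E) := by
        apply add_le_add h1
        apply mul_le_mul hCle hbound (abs_nonneg _) (by norm_num)
    _ = 12 * E := by ring

/-! ### Part B: double counting -/

variable {ι : Type} [Fintype ι]

attribute [local instance] Classical.propDecidable

theorem partB (hn : 0 < Fintype.card ι) (D : Finset ι → ℕ) (Zs : Finset ι → Finset ι)
    (h1 : ∀ J i, i ∈ Zs J → D (J ∆ {i}) = D J + 1 ∧ i ∉ Zs (J ∆ {i}))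
    (h2 : ∀ J i, i ∉ Zs J → D (J ∆ {i}) + 1 = D J ∧ i ∈ Zs (J ∆ {i}))
    (δ : ℝ) (hδ : 0 ≤ δ) (T : Finset (Finset ι))
    (hT : ∀ J ∉ T, |((Zs J).card : ℝ) - Fintype.card ι * (1 / 2) ^ (D J)| ≤
      2 * δ * Fintype.card ι) (N : ℕ) :
    ∑ d ∈ range N, |((Finset.univ.filter fun J => D J = d).card : ℝ) / 2 ^ Fintype.card ι *
        (1 / 2) ^ d -
      ((Finset.univ.filter fun J => D J = d + 1).card : ℝ) / 2 ^ Fintype.card ι *
        (1 - (1 / 2) ^ (d + 1))| ≤ 4 * δ + 2 * ((T.card : ℝ) / 2 ^ Fintype.card ι) := by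
  set n := Fintype.card ι with hnn
  have hcount : ∀ d, ∑ J ∈ Finset.univ.filter (fun J => D J = d), (Zs J).card =
      ∑ J ∈ Finset.univ.filter (fun J => D J = d + 1), ((Zs J)ᶜ).card := by
    intro d
    have e1 : ∀ (J : Finset ι), (Zs J).card = ∑ i : ι, if i ∈ Zs J then 1 else 0 := by
      intro J; simp
    have e2 : ∀ (J : Finset ι), ((Zs J)ᶜ).card = ∑ i : ι, if i ∉ Zs J then 1 else 0 := by
      intro J
      rw [Finset.sum_boole]
      congr 1
      ext i; simp
    simp_rw [e1, e2]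
    rw [Finset.sum_comm]
    rw [Finset.sum_comm (s := Finset.univ.filter (fun J => D J = d + 1))]
    refine Finset.sum_congr rfl fun i _ => ?_
    rw [Finset.sum_boole, Finset.sum_boole]
    congr 1
    refine Finset.card_nbij' (fun J => J ∆ {i}) (fun J => J ∆ {i}) ?_ ?_ ?_ ?_
    · intro J hJ
      simp only [Finset.coe_filter, Finset.mem_filter, Finset.mem_univ, true_and,
        Set.mem_setOf_eq] at hJ ⊢
      have := h1 J i hJ.2
      exact ⟨by rw [this.1, hJ.1], this.2⟩
    · intro J hJ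
      simp only [Finset.coe_filter, Finset.mem_filter, Finset.mem_univ, true_and,
        Set.mem_setOf_eq] at hJ ⊢
      have := h2 J i hJ.2
      exact ⟨by omega, this.2⟩
    · intro J _; simp
    · intro J _; simp
  set w : Finset ι → ℝ := fun J => 2 * δ * n + if J ∈ T then (n : ℝ) else 0 with hw
  have hw0 : ∀ J, 0 ≤ w J := by
    intro J; simp only [hw]; split_ifs <;> positivity
  have hZn : ∀ J, ((Zs J).card : ℝ) ≤ n := by
    intro J; exact_mod_cast Finset.card_le_univ _
  have hpw : ∀ d : ℕ, (1 / 2 : ℝ) ^ d ≤ 1 := fun d => pow_le_one₀ (by norm_num) (by norm_num)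
  have hpw0 : ∀ d : ℕ, (0 : ℝ) ≤ (1 / 2 : ℝ) ^ d := fun d => by positivity
  have hdev : ∀ J, |((Zs J).card : ℝ) - n * (1 / 2) ^ (D J)| ≤ w J := by
    intro J
    by_cases hJ : J ∈ T
    · simp only [hw, if_pos hJ]
      have a1 := hZn J
      have a2 : (0 : ℝ) ≤ ((Zs J).card : ℝ) := by positivity
      have a3 : (n : ℝ) * (1 / 2) ^ (D J) ≤ n * 1 :=
        mul_le_mul_of_nonneg_left (hpw _) (by positivity)
      have a4 : (0 : ℝ) ≤ (n : ℝ) * (1 / 2) ^ (D J) := by positivity
      have a5 : (0 : ℝ) ≤ 2 * δ * n := by positivity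
      rw [abs_le]; constructor <;> linarith
    · simp only [hw, if_neg hJ, add_zero]
      exact hT J hJ
  have hkey : ∀ d, |(n : ℝ) * (((Finset.univ.filter fun J => D J = d).card : ℝ) * (1 / 2) ^ d -
      ((Finset.univ.filter fun J => D J = d + 1).card : ℝ) * (1 - (1 / 2) ^ (d + 1)))| ≤
      ∑ J ∈ Finset.univ.filter (fun J => D J = d), w J +
      ∑ J ∈ Finset.univ.filter (fun J => D J = d + 1), w J := by
    intro d
    have b1 : (∑ J ∈ Finset.univ.filter (fun J => D J = d), ((Zs J).card : ℝ)) =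
      ∑ J ∈ Finset.univ.filter (fun J => D J = d + 1), (n - (Zs J).card : ℝ) := by
      have := congrArg (Nat.cast : ℕ → ℝ) (hcount d)
      push_cast at this
      rw [this]
      refine Finset.sum_congr rfl fun J _ => ?_
      rw [Finset.card_compl, Nat.cast_sub (Finset.card_le_univ _)]
    have b2 : |∑ J ∈ Finset.univ.filter (fun J => D J = d),
        (((Zs J).card : ℝ) - n * (1 / 2) ^ (D J))| ≤
        ∑ J ∈ Finset.univ.filter (fun J => D J = d), w J :=
      (Finset.abs_sum_le_sum_abs _ _).trans (Finset.sum_le_sum fun J _ => hdev J)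
    have b3 : |∑ J ∈ Finset.univ.filter (fun J => D J = d + 1),
        (((Zs J).card : ℝ) - n * (1 / 2) ^ (D J))| ≤
        ∑ J ∈ Finset.univ.filter (fun J => D J = d + 1), w J :=
      (Finset.abs_sum_le_sum_abs _ _).trans (Finset.sum_le_sum fun J _ => hdev J)
    have b4 : ∑ J ∈ Finset.univ.filter (fun J => D J = d),
        (((Zs J).card : ℝ) - n * (1 / 2) ^ (D J)) =
        ∑ J ∈ Finset.univ.filter (fun J => D J = d), ((Zs J).card : ℝ) -
          n * (((Finset.univ.filter fun J => D J = d).card : ℝ) * (1 / 2) ^ d) := by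
      rw [Finset.sum_sub_distrib]
      congr 1
      rw [Finset.sum_congr rfl (g := fun _ => (n : ℝ) * (1 / 2) ^ d)]
      · rw [Finset.sum_const, nsmul_eq_mul]; ring
      · intro J hJ
        rw [(Finset.mem_filter.mp hJ).2]
    have b5 : ∑ J ∈ Finset.univ.filter (fun J => D J = d + 1),
        (((Zs J).card : ℝ) - n * (1 / 2) ^ (D J)) =
        n * (((Finset.univ.filter fun J => D J = d + 1).card : ℝ) * (1 - (1 / 2) ^ (d + 1))) -
        ∑ J ∈ Finset.univ.filter (fun J => D J = d + 1), (n - (Zs J).card : ℝ) := by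
      rw [Finset.sum_congr rfl (g := fun J => (n : ℝ) * (1 - (1 / 2) ^ (d + 1)) -
        (n - (Zs J).card : ℝ))]
      · rw [Finset.sum_sub_distrib, Finset.sum_const, nsmul_eq_mul]; ring
      · intro J hJ
        rw [(Finset.mem_filter.mp hJ).2]; ring
    rw [b4] at b2
    rw [b5] at b3
    rw [abs_le] at b2 b3 ⊢
    constructor <;> nlinarith [b2.1, b2.2, b3.1, b3.2]
  have hnpos : (0 : ℝ) < n := by exact_mod_cast hn
  have h2n : (0 : ℝ) < (2 : ℝ) ^ n := by positivity
  have hsumw : ∀ (M : ℕ), ∑ d ∈ range M, ∑ J ∈ Finset.univ.filter (fun J => D J = d), w J ≤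
      ∑ J, w J := by
    intro M
    rw [← Finset.sum_biUnion]
    · exact Finset.sum_le_sum_of_subset_of_nonneg (Finset.subset_univ _) fun J _ _ => hw0 J
    · intro d _ d' _ hdd
      simp only [Function.onFun]
      rw [Finset.disjoint_left]
      intro J hJ hJ'
      exact hdd (((Finset.mem_filter.mp hJ).2).symm.trans (Finset.mem_filter.mp hJ').2)
  have hsumw' : ∑ d ∈ range N, ∑ J ∈ Finset.univ.filter (fun J => D J = d + 1), w J ≤
      ∑ J, w J := by
    have := hsumw (N + 1)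
    rw [Finset.sum_range_succ'] at this
    have h0 : 0 ≤ ∑ J ∈ Finset.univ.filter (fun J => D J = 0), w J :=
      Finset.sum_nonneg fun J _ => hw0 J
    linarith
  have hwtot : ∑ J, w J = 2 * δ * n * 2 ^ n + T.card * n := by
    simp only [hw]
    rw [Finset.sum_add_distrib, Finset.sum_const, Finset.card_univ, Fintype.card_finset,
      nsmul_eq_mul]
    push_cast
    rw [Finset.sum_ite_mem, Finset.univ_inter, Finset.sum_const, nsmul_eq_mul]
    ring
  have hmain : (n * 2 ^ n : ℝ) * ∑ d ∈ range N,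
      |((Finset.univ.filter fun J => D J = d).card : ℝ) / 2 ^ n * (1 / 2) ^ d -
      ((Finset.univ.filter fun J => D J = d + 1).card : ℝ) / 2 ^ n * (1 - (1 / 2) ^ (d + 1))| ≤
      2 * ∑ J, w J := by
    rw [Finset.mul_sum]
    calc _ = ∑ d ∈ range N, |(n : ℝ) * (((Finset.univ.filter fun J => D J = d).card : ℝ) *
          (1 / 2) ^ d - ((Finset.univ.filter fun J => D J = d + 1).card : ℝ) *
            (1 - (1 / 2) ^ (d + 1)))| := by
          refine Finset.sum_congr rfl fun d _ => ?_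
          rw [← abs_of_pos (a := (n * 2 ^ n : ℝ)) (by positivity), ← abs_mul]
          congr 1
          field_simp
      _ ≤ ∑ d ∈ range N, (∑ J ∈ Finset.univ.filter (fun J => D J = d), w J +
          ∑ J ∈ Finset.univ.filter (fun J => D J = d + 1), w J) :=
          Finset.sum_le_sum fun d _ => hkey d
      _ ≤ _ := by
          rw [Finset.sum_add_distrib]
          linarith [hsumw N]
  rw [hwtot] at hmain
  have h3 : (n * 2 ^ n : ℝ) * (4 * δ + 2 * ((T.card : ℝ) / 2 ^ n)) =
      2 * (2 * δ * n * 2 ^ n + T.card * n) := by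
    field_simp; ring
  rw [← h3] at hmain
  exact le_of_mul_le_mul_left hmain (by positivity)

/-! ### Part A: linear algebra -/

abbrev F2 := ZMod 2

/-- the other coordinates -/
def oth (J : Finset ι) : (ι → F2 × F2) →ₗ[F2] (ι → F2) where
  toFun l := fun j => if j ∈ J then (l j).2 else (l j).1
  map_add' l l' := by
    funext j; by_cases h : j ∈ J <;> simp [h]
  map_smul' c l := by
    funext j; by_cases h : j ∈ J <;> simp [h]

/-- own coordinates -/
def own (J : Finset ι) : (ι → F2 × F2) →ₗ[F2] (ι → F2) where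
  toFun l := fun j => if j ∈ J then (l j).1 else (l j).2
  map_add' l l' := by
    funext j; by_cases h : j ∈ J <;> simp [h]
  map_smul' c l := by
    funext j; by_cases h : j ∈ J <;> simp [h]

theorem oth_apply (J : Finset ι) (l : ι → F2 × F2) (j : ι) :
    oth J l j = if j ∈ J then (l j).2 else (l j).1 := rfl

theorem own_apply (J : Finset ι) (l : ι → F2 × F2) (j : ι) :
    own J l j = if j ∈ J then (l j).1 else (l j).2 := rfl

theorem mem_LJ (J : Finset ι) (l : ι → F2 × F2) : l ∈ LJ J ↔ oth J l = 0 := by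
  constructor
  · intro h
    funext j
    rw [oth_apply]
    split_ifs with hj
    · exact h.1 j hj
    · exact h.2 j hj
  · intro h
    refine ⟨fun j hj => ?_, fun j hj => ?_⟩
    · have := congrFun h j
      rwa [oth_apply, if_pos hj] at this
    · have := congrFun h j
      rwa [oth_apply, if_neg hj] at this

theorem eq_zero_of_own_oth (J : Finset ι) (l : ι → F2 × F2) (j : ι) (h1 : own J l j = 0)
    (h2 : oth J l j = 0) : l j = 0 := by
  rw [own_apply] at h1
  rw [oth_apply] at h2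
  split_ifs at h1 h2 with h
  · exact Prod.ext h1 h2
  · exact Prod.ext h2 h1

theorem q_eq (J : Finset ι) (l : ι → F2 × F2) :
    ∑ i, (l i).1 * (l i).2 = ∑ i, own J l i * oth J l i := by
  refine Finset.sum_congr rfl fun i _ => ?_
  rw [own_apply, oth_apply]
  split_ifs
  · rfl
  · rw [mul_comm]

/-- the intersection with the coordinate Lagrangian -/
def MJ (S : Submodule F2 (ι → F2 × F2)) (J : Finset ι) : Submodule F2 (ι → F2 × F2) :=
  S ⊓ LinearMap.ker (oth J)

theorem mem_MJ (S : Submodule F2 (ι → F2 × F2)) (J : Finset ι) (l : ι → F2 × F2) :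
    l ∈ MJ S J ↔ l ∈ S ∧ l ∈ LJ J := by
  rw [MJ, Submodule.mem_inf, LinearMap.mem_ker, mem_LJ]

/-- pairing -/
def pr : (ι → F2) →ₗ[F2] Module.Dual F2 (ι → F2) :=
  LinearMap.mk₂ F2 (fun y x => ∑ j, x j * y j)
    (by intro y y' x; simp [mul_add, Finset.sum_add_distrib])
    (by intro c y x; simp [Finset.mul_sum]; exact Finset.sum_congr rfl fun j _ => by ring)
    (by intro y x x'; simp [add_mul, Finset.sum_add_distrib])
    (by intro c y x; simp [Finset.mul_sum]; exact Finset.sum_congr rfl fun j _ => by ring)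

theorem pr_apply (y x : ι → F2) : pr y x = ∑ j, x j * y j := rfl

theorem pr_single (y : ι → F2) (i : ι) : pr y (Pi.single i 1) = y i := by
  rw [pr_apply, Finset.sum_eq_single i]
  · simp
  · intro j _ hj; simp [Pi.single_eq_of_ne hj]
  · intro h; exact absurd (Finset.mem_univ _) h

theorem pr_inj : Function.Injective (pr (ι := ι)) := by
  intro y y' h
  funext i
  rw [← pr_single y i, ← pr_single y' i, h]

theorem mem_flip (J : Finset ι) (i j : ι) (hij : j ≠ i) : j ∈ J ∆ {i} ↔ j ∈ J := by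
  simp [Finset.mem_symmDiff, hij]

theorem mem_flip_self (J : Finset ι) (i : ι) : i ∈ J ∆ {i} ↔ i ∉ J := by
  simp [Finset.mem_symmDiff]

theorem oth_flip (J : Finset ι) (i j : ι) (hij : j ≠ i) (l : ι → F2 × F2) :
    oth (J ∆ {i}) l j = oth J l j := by
  rw [oth_apply, oth_apply]; simp only [mem_flip J i j hij]

theorem oth_flip_self (J : Finset ι) (i : ι) (l : ι → F2 × F2) :
    oth (J ∆ {i}) l i = own J l i := by
  rw [oth_apply, own_apply]; simp only [mem_flip_self]
  by_cases h : i ∈ J <;> simp [h]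

theorem own_flip_self (J : Finset ι) (i : ι) (l : ι → F2 × F2) :
    own (J ∆ {i}) l i = oth J l i := by
  rw [oth_apply, own_apply]; simp only [mem_flip_self]
  by_cases h : i ∈ J <;> simp [h]

/-- maximality -/
theorem exists_of_vanish (S : Submodule F2 (ι → F2 × F2))
    (hq : ∀ l ∈ S, ∑ i, (l i).1 * (l i).2 = 0)
    (hd : Fintype.card ι ≤ Module.finrank F2 S) (J : Finset ι) (i : ι)
    (hv : ∀ l ∈ MJ S J, l i = 0) : ∃ l ∈ MJ S (J ∆ {i}), l i ≠ 0 := by
  -- the bilinear form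
  have hb : ∀ l ∈ S, ∀ l' ∈ S, ∑ j, (own J l j * oth J l' j + oth J l j * own J l' j) = 0 := by
    intro l hl l' hl'
    have h1 := hq _ (S.add_mem hl hl')
    have h2 := hq _ hl
    have h3 := hq _ hl'
    rw [q_eq J] at h1 h2 h3
    simp only [map_add, Pi.add_apply] at h1
    have : ∑ j, (own J l j * oth J l' j + oth J l j * own J l' j) =
      ∑ j, ((own J l j + own J l' j) * (oth J l j + oth J l' j)) -
      ∑ j, own J l j * oth J l j - ∑ j, own J l' j * oth J l' j := by
      rw [← Finset.sum_sub_distrib, ← Finset.sum_sub_distrib]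
      exact Finset.sum_congr rfl fun j _ => by ring
    rw [this, h1, h2, h3]; simp
  -- dimensions
  set f : S →ₗ[F2] (ι → F2) := (oth J).domRestrict S with hf
  set N : Submodule F2 (ι → F2) := (MJ S J).map (own J) with hN
  have hinj : ∀ l ∈ MJ S J, own J l = 0 → l = 0 := by
    intro l hl h0
    funext j
    apply eq_zero_of_own_oth J l j (congrFun h0 j)
    have := ((mem_MJ S J l).mp hl).2
    rw [mem_LJ] at this
    exact congrFun this j
  have hNdim : Module.finrank F2 N = Module.finrank F2 (MJ S J) := by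
    have h1 : Function.Injective ((own J).domRestrict (MJ S J)) := by
      rw [injective_iff_map_eq_zero]
      rintro ⟨l, hl⟩ h0
      exact Subtype.ext (hinj l hl h0)
    rw [hN, ← LinearMap.range_domRestrict, LinearMap.finrank_range_of_inj h1]
  have hker : Module.finrank F2 (LinearMap.ker f) = Module.finrank F2 (MJ S J) := by
    rw [← Submodule.finrank_map_subtype_eq]
    have hmm : Submodule.map S.subtype (LinearMap.ker f) = MJ S J := by
      ext l
      simp only [Submodule.mem_map, LinearMap.mem_ker, Submodule.coe_subtype, Subtype.exists, MJ,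
        Submodule.mem_inf]
      constructor
      · rintro ⟨a, ha, h0, rfl⟩
        exact ⟨ha, h0⟩
      · rintro ⟨ha, h0⟩
        exact ⟨l, ha, h0, rfl⟩
    rw [hmm]
  have hrk := LinearMap.finrank_range_add_finrank_ker f
  set Y' : Submodule F2 (Module.Dual F2 (ι → F2)) := (LinearMap.range f).map pr with hY'
  have hY'dim : Module.finrank F2 Y' = Module.finrank F2 (LinearMap.range f) := by
    have h1 : Function.Injective ((pr (ι := ι)).domRestrict (LinearMap.range f)) := by
      intro a b hab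
      exact Subtype.ext (pr_inj hab)
    rw [hY', ← LinearMap.range_domRestrict, LinearMap.finrank_range_of_inj h1]
  have hle : Y' ≤ N.dualAnnihilator := by
    rintro _ ⟨y, ⟨⟨l, hl⟩, rfl⟩, rfl⟩
    rw [Submodule.mem_dualAnnihilator]
    rintro _ ⟨l', hl', rfl⟩
    have h1 := hb l' ((mem_MJ S J l').mp hl').1 l hl
    have h2 := ((mem_MJ S J l').mp hl').2
    rw [mem_LJ] at h2
    rw [pr_apply]
    simp only [h2, Pi.zero_apply, zero_mul, add_zero] at h1
    exact h1
  have hann := Subspace.finrank_add_finrank_dualAnnihilator_eq N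
  have heq : Y' = N.dualAnnihilator := by
    apply Submodule.eq_of_le_of_finrank_le hle
    rw [Module.finrank_fintype_fun_eq_card] at hann
    omega
  have hmem : pr (Pi.single i 1) ∈ Y' := by
    rw [heq, Submodule.mem_dualAnnihilator]
    rintro _ ⟨l', hl', rfl⟩
    rw [pr_apply, Finset.sum_eq_single i]
    · have := hv l' hl'
      simp [own_apply, this]
    · intro j _ hj; simp [Pi.single_eq_of_ne hj]
    · intro h; exact absurd (Finset.mem_univ _) h
  obtain ⟨y, ⟨⟨l, hl⟩, hly⟩, hy⟩ := hmem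
  have hy2 := pr_inj hy
  have hoth : oth J l = Pi.single i 1 := by rw [← hy2, ← hly]; rfl
  have hq1 := hq l hl
  rw [q_eq J, hoth, Finset.sum_eq_single i (by intro j _ hj; simp [Pi.single_eq_of_ne hj])
    (by intro h; exact absurd (Finset.mem_univ _) h)] at hq1
  simp only [Pi.single_eq_same, mul_one] at hq1
  refine ⟨l, ?_, ?_⟩
  · rw [mem_MJ, mem_LJ]
    refine ⟨hl, ?_⟩
    funext j
    by_cases hj : j = i
    · subst hj; rw [oth_flip_self, hq1]; rfl
    · rw [oth_flip J i j hj, hoth, Pi.single_eq_of_ne hj]; rfl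
  · intro h0
    have : oth J l i = 0 := by rw [oth_apply, h0]; simp
    rw [hoth] at this
    simp at this

/-- isotropy -/
theorem vanish_of_exists (S : Submodule F2 (ι → F2 × F2))
    (hq : ∀ l ∈ S, ∑ i, (l i).1 * (l i).2 = 0) (J : Finset ι) (i : ι)
    (l : ι → F2 × F2) (hl : l ∈ MJ S J) (hli : l i ≠ 0) :
    ∀ l' ∈ MJ S (J ∆ {i}), l' i = 0 := by
  intro l' hl'
  rw [mem_MJ, mem_LJ] at hl hl'
  have h1 := hq _ (S.add_mem hl.1 hl'.1)
  rw [q_eq J] at h1
  rw [Finset.sum_eq_single i] at h1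
  · simp only [map_add, Pi.add_apply] at h1
    have h2 : oth J l i = 0 := congrFun hl.2 i
    have h3 : own J l' i = 0 := by
      have := congrFun hl'.2 i
      rw [oth_flip_self] at this; exact this
    rw [h2, h3, add_zero, zero_add] at h1
    have h4 : own J l i ≠ 0 := fun h => hli (eq_zero_of_own_oth J l i h h2)
    have h5 : oth J l' i = 0 := by
      rcases mul_eq_zero.mp h1 with h | h
      · exact absurd h h4
      · exact h
    exact eq_zero_of_own_oth J l' i h3 h5
  · intro j _ hj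
    have h2 : oth J l j = 0 := congrFun hl.2 j
    have h3 : oth J l' j = 0 := by
      have := congrFun hl'.2 j
      rw [oth_flip J i j hj] at this; exact this
    simp [map_add, Pi.add_apply, h2, h3]
  · intro h; exact absurd (Finset.mem_univ _) h

/-- elements vanishing at `i` -/
def HJ (S : Submodule F2 (ι → F2 × F2)) (J : Finset ι) (i : ι) : Submodule F2 (ι → F2 × F2) :=
  MJ S J ⊓ LinearMap.ker (LinearMap.proj (R := F2) (φ := fun _ : ι => F2 × F2) i)

theorem mem_HJ (S : Submodule F2 (ι → F2 × F2)) (J : Finset ι) (i : ι) (l : ι → F2 × F2) :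
    l ∈ HJ S J i ↔ l ∈ MJ S J ∧ l i = 0 := by
  rw [HJ, Submodule.mem_inf, LinearMap.mem_ker, LinearMap.proj_apply]

theorem HJ_flip (S : Submodule F2 (ι → F2 × F2)) (J : Finset ι) (i : ι) :
    HJ S (J ∆ {i}) i = HJ S J i := by
  ext l
  rw [mem_HJ, mem_HJ, mem_MJ, mem_MJ, mem_LJ, mem_LJ]
  constructor
  · rintro ⟨⟨h1, h2⟩, h3⟩
    refine ⟨⟨h1, ?_⟩, h3⟩
    funext j
    by_cases hj : j = i
    · subst hj; rw [oth_apply, h3]; simp
    · rw [← oth_flip J i j hj]; exact congrFun h2 j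
  · rintro ⟨⟨h1, h2⟩, h3⟩
    refine ⟨⟨h1, ?_⟩, h3⟩
    funext j
    by_cases hj : j = i
    · subst hj; rw [oth_apply, h3]; simp
    · rw [oth_flip J i j hj]; exact congrFun h2 j

theorem finrank_HJ (S : Submodule F2 (ι → F2 × F2)) (J : Finset ι) (i : ι)
    (l : ι → F2 × F2) (hl : l ∈ MJ S J) (hli : l i ≠ 0) :
    Module.finrank F2 (HJ S J i) + 1 = Module.finrank F2 (MJ S J) := by
  set g : MJ S J →ₗ[F2] F2 := (LinearMap.proj i ∘ₗ own J).domRestrict (MJ S J) with hg
  have hgl : g ⟨l, hl⟩ ≠ 0 := by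
    intro h
    have h2 : own J l i = 0 := h
    have h3 : oth J l i = 0 := by
      have := ((mem_MJ S J l).mp hl).2
      rw [mem_LJ] at this
      exact congrFun this i
    exact hli (eq_zero_of_own_oth J l i h2 h3)
  have hrange : LinearMap.range g = ⊤ := by
    rw [LinearMap.range_eq_top]
    apply LinearMap.surjective_of_ne_zero
    intro h
    rw [h] at hgl
    exact hgl rfl
  have h1 := LinearMap.finrank_range_add_finrank_ker g
  rw [hrange, finrank_top, Module.finrank_self] at h1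
  have h2 : Module.finrank F2 (LinearMap.ker g) = Module.finrank F2 (HJ S J i) := by
    rw [← Submodule.finrank_map_subtype_eq]
    have hmm : Submodule.map (MJ S J).subtype (LinearMap.ker g) = HJ S J i := by
      ext x
      rw [mem_HJ]
      simp only [Submodule.mem_map, LinearMap.mem_ker, Submodule.coe_subtype, Subtype.exists]
      constructor
      · rintro ⟨a, ha, h0, rfl⟩
        refine ⟨ha, ?_⟩
        have h2 : own J a i = 0 := h0
        have h3 : oth J a i = 0 := by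
          have := ((mem_MJ S J a).mp ha).2
          rw [mem_LJ] at this
          exact congrFun this i
        exact eq_zero_of_own_oth J a i h2 h3
      · rintro ⟨ha, h0⟩
        refine ⟨x, ha, ?_, rfl⟩
        show own J x i = 0
        rw [own_apply, h0]; simp
    rw [hmm]
  omega

theorem HJ_of_vanish (S : Submodule F2 (ι → F2 × F2)) (J : Finset ι) (i : ι)
    (hv : ∀ l ∈ MJ S J, l i = 0) : HJ S J i = MJ S J := by
  ext l
  rw [mem_HJ]
  exact ⟨fun h => h.1, fun h => ⟨h, hv l h⟩⟩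

/-- common zeros -/
def ZJ (S : Submodule F2 (ι → F2 × F2)) (J : Finset ι) : Finset ι :=
  Finset.univ.filter fun i => ∀ l ∈ MJ S J, l i = 0

theorem mem_ZJ (S : Submodule F2 (ι → F2 × F2)) (J : Finset ι) (i : ι) :
    i ∈ ZJ S J ↔ ∀ l ∈ MJ S J, l i = 0 := by
  simp [ZJ]

theorem flip_vanish (S : Submodule F2 (ι → F2 × F2))
    (hq : ∀ l ∈ S, ∑ i, (l i).1 * (l i).2 = 0)
    (hd : Fintype.card ι ≤ Module.finrank F2 S) (J : Finset ι) (i : ι) (hi : i ∈ ZJ S J) :
    Module.finrank F2 (MJ S (J ∆ {i})) = Module.finrank F2 (MJ S J) + 1 ∧ i ∉ ZJ S (J ∆ {i}) := by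
  rw [mem_ZJ] at hi
  obtain ⟨l, hl, hli⟩ := exists_of_vanish S hq hd J i hi
  have h1 := finrank_HJ S (J ∆ {i}) i l hl hli
  rw [HJ_flip, HJ_of_vanish S J i hi] at h1
  refine ⟨h1.symm, ?_⟩
  rw [mem_ZJ]
  intro h
  exact hli (h l hl)

theorem flip_nonvanish (S : Submodule F2 (ι → F2 × F2))
    (hq : ∀ l ∈ S, ∑ i, (l i).1 * (l i).2 = 0) (J : Finset ι) (i : ι) (hi : i ∉ ZJ S J) :
    Module.finrank F2 (MJ S (J ∆ {i})) + 1 = Module.finrank F2 (MJ S J) ∧ i ∈ ZJ S (J ∆ {i}) := by
  rw [mem_ZJ] at hi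
  push Not at hi
  obtain ⟨l, hl, hli⟩ := hi
  have h2 := vanish_of_exists S hq J i l hl hli
  have h1 := finrank_HJ S J i l hl hli
  rw [← HJ_flip, HJ_of_vanish S (J ∆ {i}) i h2] at h1
  exact ⟨h1, (mem_ZJ _ _ _).mpr h2⟩

/-- counting zeros -/
theorem count_zeros (S : Submodule F2 (ι → F2 × F2)) (J : Finset ι) :
    2 * ∑ l : MJ S J, (Finset.univ.filter fun i => (l : ι → F2 × F2) i = 0).card =
      2 ^ Module.finrank F2 (MJ S J) * (Fintype.card ι + (ZJ S J).card) := by
  have e1 : ∀ (l : MJ S J), (Finset.univ.filter fun i => (l : ι → F2 × F2) i = 0).card =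
      ∑ i : ι, if (l : ι → F2 × F2) i = 0 then 1 else 0 := by
    intro l; simp
  simp_rw [e1]
  rw [Finset.sum_comm, Finset.mul_sum]
  have e2 : ∀ i : ι, 2 * ∑ l : MJ S J, (if (l : ι → F2 × F2) i = 0 then 1 else 0) =
      2 ^ Module.finrank F2 (MJ S J) + if i ∈ ZJ S J then 2 ^ Module.finrank F2 (MJ S J) else 0 := by
    intro i
    have e3 : (∑ l : MJ S J, (if (l : ι → F2 × F2) i = 0 then 1 else 0)) =
        2 ^ Module.finrank F2 (HJ S J i) := by
      rw [Finset.sum_boole]
      simp only [Nat.cast_id]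
      have : Nat.card (HJ S J i) = 2 ^ Module.finrank F2 (HJ S J i) := by
        rw [Module.natCard_eq_pow_finrank (K := F2), Nat.card_zmod]
      rw [← this, ← Fintype.card_subtype, ← Nat.card_eq_fintype_card]
      refine Nat.card_congr ⟨fun l => ⟨l.1.1, (mem_HJ _ _ _ _).mpr ⟨l.1.2, l.2⟩⟩,
        fun l => ⟨⟨l.1, ((mem_HJ _ _ _ _).mp l.2).1⟩, ((mem_HJ _ _ _ _).mp l.2).2⟩,
        fun l => rfl, fun l => rfl⟩
    rw [e3]
    split_ifs with h
    · rw [mem_ZJ] at h
      rw [HJ_of_vanish S J i h]; ring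
    · rw [mem_ZJ] at h
      push Not at h
      obtain ⟨l, hl, hli⟩ := h
      rw [← finrank_HJ S J i l hl hli]; ring
  rw [Finset.sum_congr rfl fun i _ => e2 i, Finset.sum_add_distrib, Finset.sum_const,
    Finset.card_univ, Finset.sum_ite_mem, Finset.univ_inter, Finset.sum_const]
  simp only [smul_eq_mul]
  ring

/-! ### Part D: averaging -/

/-- zero set -/
def zs (l : ι → F2 × F2) : Finset ι := Finset.univ.filter fun i => l i = 0

theorem mem_zs (l : ι → F2 × F2) (i : ι) : i ∈ zs l ↔ l i = 0 := by simp [zs]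

theorem zs_zero : zs (0 : ι → F2 × F2) = Finset.univ := by
  ext i; simp [zs]

/-- typical sets `Z` -/
def Ty (δ : ℝ) (Z : Finset ι) : Prop :=
  |(Z.card : ℝ) - Fintype.card ι / 2| ≤ δ * Fintype.card ι

theorem typ_dev (S : Submodule F2 (ι → F2 × F2)) (J : Finset ι) (δ : ℝ) (hδ : 0 ≤ δ)
    (ht : ∀ l ∈ MJ S J, l ≠ 0 → Ty δ (zs l)) :
    |((ZJ S J).card : ℝ) - Fintype.card ι * (1 / 2) ^ (Module.finrank F2 (MJ S J))| ≤
      2 * δ * Fintype.card ι := by
  set n := Fintype.card ι with hn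
  set D := Module.finrank F2 (MJ S J) with hD
  have h1 : 2 * ∑ l : MJ S J, ((zs (l : ι → F2 × F2)).card : ℝ) =
      2 ^ D * ((n : ℝ) + (ZJ S J).card) := by
    have := count_zeros S J
    exact_mod_cast this
  have hcard : (Finset.univ : Finset (MJ S J)).card = 2 ^ D := by
    rw [Finset.card_univ, ← Nat.card_eq_fintype_card, Module.natCard_eq_pow_finrank (K := F2),
      Nat.card_zmod]
  have h2 : ∑ l : MJ S J, (((zs (l : ι → F2 × F2)).card : ℝ) - n / 2) =
      2 ^ D * ((ZJ S J).card : ℝ) / 2 := by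
    rw [Finset.sum_sub_distrib, Finset.sum_const, hcard, nsmul_eq_mul]
    push_cast
    linarith
  have h3 : ∑ l : MJ S J, (((zs (l : ι → F2 × F2)).card : ℝ) - n / 2) =
      ∑ l ∈ Finset.univ.erase (0 : MJ S J), (((zs (l : ι → F2 × F2)).card : ℝ) - n / 2) + n / 2 := by
    rw [← Finset.sum_erase_add _ _ (Finset.mem_univ (0 : MJ S J))]
    congr 1
    rw [ZeroMemClass.coe_zero, zs_zero, Finset.card_univ, ← hn]; ring
  have h4 : |∑ l ∈ Finset.univ.erase (0 : MJ S J), (((zs (l : ι → F2 × F2)).card : ℝ) - n / 2)| ≤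
      2 ^ D * (δ * n) := by
    refine (Finset.abs_sum_le_sum_abs _ _).trans ?_
    calc _ ≤ ∑ l ∈ Finset.univ.erase (0 : MJ S J), δ * n := by
          refine Finset.sum_le_sum fun l hl => ?_
          apply ht l.1 l.2
          intro h
          exact (Finset.mem_erase.mp hl).1 (Subtype.ext h)
      _ ≤ _ := by
          rw [Finset.sum_const, nsmul_eq_mul]
          apply mul_le_mul_of_nonneg_right _ (by positivity)
          have := Finset.card_le_card (Finset.erase_subset (0 : MJ S J) Finset.univ)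
          rw [hcard] at this
          exact_mod_cast this
  have h5 : ∑ l ∈ Finset.univ.erase (0 : MJ S J), (((zs (l : ι → F2 × F2)).card : ℝ) - n / 2) =
      2 ^ D / 2 * (((ZJ S J).card : ℝ) - n * (1 / 2) ^ D) := by
    have h6 : (2 : ℝ) ^ D * (1 / 2) ^ D = 1 := by rw [← mul_pow]; norm_num
    have h7 : ∑ l ∈ Finset.univ.erase (0 : MJ S J), (((zs (l : ι → F2 × F2)).card : ℝ) - n / 2) =
      2 ^ D * ((ZJ S J).card : ℝ) / 2 - n / 2 := by linarith
    rw [h7]
    linear_combination (n / 2 : ℝ) * h6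
  rw [h5, abs_mul, abs_of_pos (by positivity)] at h4
  have h8 : (0 : ℝ) < 2 ^ D / 2 := by positivity
  have h9 : 2 ^ D / 2 * |((ZJ S J).card : ℝ) - n * (1 / 2) ^ D| ≤ 2 ^ D / 2 * (2 * δ * n) := by
    linarith
  exact le_of_mul_le_mul_left h9 h8

/-- Variance of the cardinality of a random subset. -/
theorem variance : ∑ Z : Finset ι, ((Z.card : ℝ) - Fintype.card ι / 2) ^ 2 =
    (2 : ℝ) ^ Fintype.card ι * ((Fintype.card ι : ℝ) / 4) := by
  set n := Fintype.card ι with hn
  have h1 : ∑ Z : Finset ι, ((Z.card : ℝ) - n / 2) ^ 2 =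
      ∑ m ∈ range (n + 1), (n.choose m : ℝ) * ((m : ℝ) - n / 2) ^ 2 := by
    have := Finset.sum_powerset_apply_card (fun m : ℕ => ((m : ℝ) - n / 2) ^ 2)
      (x := (Finset.univ : Finset ι))
    rw [Finset.powerset_univ, Finset.card_univ, ← hn] at this
    rw [this]
    exact Finset.sum_congr rfl fun m _ => by rw [nsmul_eq_mul]
  rw [h1]
  have h2 := congrArg (Polynomial.eval (1 / 2 : ℝ)) (bernsteinPolynomial.variance ℝ n)
  simp only [bernsteinPolynomial, Polynomial.eval_finset_sum, Polynomial.eval_mul,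
    Polynomial.eval_pow, Polynomial.eval_sub, Polynomial.eval_smul, Polynomial.eval_X,
    Polynomial.eval_natCast, Polynomial.eval_one, nsmul_eq_mul, smul_eq_mul] at h2
  have h3 : ∀ m ∈ range (n + 1), (n.choose m : ℝ) * ((m : ℝ) - n / 2) ^ 2 = 2 ^ n *
      (((n : ℝ) * (1 / 2) - m) ^ 2 * ((n.choose m : ℝ) * (1 / 2) ^ m * (1 - 1 / 2) ^ (n - m))) := by
    intro m hm
    have hm' : m ≤ n := by rw [Finset.mem_range] at hm; omega
    have h4 : (2 : ℝ) ^ n * ((1 / 2) ^ m * (1 - 1 / 2) ^ (n - m)) = 1 := by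
      rw [show (1 - 1 / 2 : ℝ) = 1 / 2 by norm_num, ← pow_add, show m + (n - m) = n by omega,
        ← mul_pow]
      norm_num
    calc _ = (n.choose m : ℝ) * ((n : ℝ) * (1 / 2) - m) ^ 2 *
        ((2 : ℝ) ^ n * ((1 / 2) ^ m * (1 - 1 / 2) ^ (n - m))) := by rw [h4]; ring
      _ = _ := by ring
  rw [Finset.sum_congr rfl h3, ← Finset.mul_sum]
  congr 1
  rw [h2]; ring

theorem atyp_card (δ : ℝ) (hδ : 0 < δ) (hn : 0 < Fintype.card ι) :
    ((Finset.univ.filter fun Z : Finset ι => ¬ Ty δ Z).card : ℝ) ≤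
      2 ^ Fintype.card ι / (4 * δ ^ 2 * Fintype.card ι) := by
  set n := Fintype.card ι with hnn
  have hnpos : (0 : ℝ) < n := by exact_mod_cast hn
  have h1 : ((Finset.univ.filter fun Z : Finset ι => ¬ Ty δ Z).card : ℝ) * (δ * n) ^ 2 ≤
      2 ^ n * (n / 4) := by
    rw [← variance (ι := ι), ← nsmul_eq_mul, ← Finset.sum_const]
    calc _ ≤ ∑ Z ∈ Finset.univ.filter (fun Z : Finset ι => ¬ Ty δ Z),
          ((Z.card : ℝ) - n / 2) ^ 2 := by
          refine Finset.sum_le_sum fun Z hZ => ?_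
          have := (Finset.mem_filter.mp hZ).2
          rw [Ty, not_le] at this
          rw [← sq_abs ((Z.card : ℝ) - n / 2)]
          apply pow_le_pow_left₀ (by positivity) this.le
      _ ≤ _ := Finset.sum_le_sum_of_subset_of_nonneg (Finset.filter_subset _ _)
          fun Z _ _ => sq_nonneg _
  rw [le_div_iff₀ (by positivity)]
  have h2 : ((Finset.univ.filter fun Z : Finset ι => ¬ Ty δ Z).card : ℝ) * (4 * δ ^ 2 * n) * n =
    4 * (((Finset.univ.filter fun Z : Finset ι => ¬ Ty δ Z).card : ℝ) * (δ * n) ^ 2) := by ring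
  have h3 : ((Finset.univ.filter fun Z : Finset ι => ¬ Ty δ Z).card : ℝ) * (4 * δ ^ 2 * n) * n ≤
    2 ^ n * n := by rw [h2]; linarith
  exact le_of_mul_le_mul_right h3 hnpos

/-- Markov. -/
theorem markov (Ω : Type) [Fintype Ω] (K δ : ℝ) (hδ : 0 < δ) (hK : 0 ≤ K)
    (hn : 0 < Fintype.card ι) (S : Ω → Submodule F2 (ι → F2 × F2))
    (hS : ∀ J Z : Finset ι, (2 : ℝ) ^ Fintype.card ι *
      ((Finset.univ.filter fun ω => ∃ l ∈ MJ (S ω) J, l ≠ 0 ∧ zs l = Z).card : ℝ) ≤
        K * Fintype.card Ω) :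
    ((Finset.univ.filter fun ω => δ * 2 ^ Fintype.card ι <
      ((Finset.univ.filter fun J => ¬ ∀ l ∈ MJ (S ω) J, l ≠ 0 → Ty δ (zs l)).card : ℝ)).card : ℝ) ≤
      K / (4 * δ ^ 3 * Fintype.card ι) * Fintype.card Ω := by
  set n := Fintype.card ι with hnn
  have hnpos : (0 : ℝ) < n := by exact_mod_cast hn
  set A : Ω → Finset (Finset ι) := fun ω =>
    Finset.univ.filter fun J => ¬ ∀ l ∈ MJ (S ω) J, l ≠ 0 → Ty δ (zs l) with hA
  set At : Finset (Finset ι) := Finset.univ.filter fun Z : Finset ι => ¬ Ty δ Z with hAt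
  have h1 : ∑ ω, ((A ω).card : ℝ) ≤ At.card * (K * Fintype.card Ω) := by
    have e1 : ∀ ω, ((A ω).card : ℝ) ≤ ∑ J : Finset ι, ∑ Z ∈ At,
        if ∃ l ∈ MJ (S ω) J, l ≠ 0 ∧ zs l = Z then (1 : ℝ) else 0 := by
      intro ω
      have e2 : ((A ω).card : ℝ) = ∑ J : Finset ι,
          if ¬ ∀ l ∈ MJ (S ω) J, l ≠ 0 → Ty δ (zs l) then (1 : ℝ) else 0 := by
        rw [Finset.sum_boole]
      rw [e2]
      refine Finset.sum_le_sum fun J _ => ?_
      split_ifs with h
      · exact Finset.sum_nonneg fun Z _ => by split_ifs <;> norm_num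
      · push Not at h
        obtain ⟨l, hl, hl0, hlt⟩ := h
        have hmem : zs l ∈ At := by simp [hAt, hlt]
        have := Finset.single_le_sum (f := fun Z => if ∃ l ∈ MJ (S ω) J, l ≠ 0 ∧ zs l = Z
          then (1 : ℝ) else 0) (fun Z _ => by positivity) hmem
        refine le_trans ?_ this
        have hex : ∃ l' ∈ MJ (S ω) J, l' ≠ 0 ∧ zs l' = zs l := ⟨l, hl, hl0, rfl⟩
        simp only [if_pos hex]
        exact le_refl _
    calc ∑ ω, ((A ω).card : ℝ) ≤ ∑ ω, ∑ J : Finset ι, ∑ Z ∈ At,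
          (if ∃ l ∈ MJ (S ω) J, l ≠ 0 ∧ zs l = Z then (1 : ℝ) else 0) :=
          Finset.sum_le_sum fun ω _ => e1 ω
      _ = ∑ J : Finset ι, ∑ Z ∈ At, ∑ ω,
          (if ∃ l ∈ MJ (S ω) J, l ≠ 0 ∧ zs l = Z then (1 : ℝ) else 0) := by
          rw [Finset.sum_comm]
          exact Finset.sum_congr rfl fun J _ => Finset.sum_comm
      _ ≤ ∑ J : Finset ι, ∑ Z ∈ At, K * Fintype.card Ω / 2 ^ n := by
          refine Finset.sum_le_sum fun J _ => Finset.sum_le_sum fun Z _ => ?_
          rw [Finset.sum_boole, le_div_iff₀ (by positivity), mul_comm]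
          exact hS J Z
      _ = At.card * (K * Fintype.card Ω) := by
          rw [Finset.sum_const, Finset.sum_const, Finset.card_univ, Fintype.card_finset,
            nsmul_eq_mul, nsmul_eq_mul, ← hnn]
          push_cast
          field_simp
  have h2 := atyp_card (ι := ι) δ hδ hn
  set Bad := Finset.univ.filter fun ω => δ * 2 ^ n < ((A ω).card : ℝ) with hBad
  have h3 : (Bad.card : ℝ) * (δ * 2 ^ n) ≤ ∑ ω, ((A ω).card : ℝ) := by
    rw [← nsmul_eq_mul, ← Finset.sum_const]
    calc _ ≤ ∑ ω ∈ Bad, ((A ω).card : ℝ) :=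
          Finset.sum_le_sum fun ω hω => ((Finset.mem_filter.mp hω).2).le
      _ ≤ _ := Finset.sum_le_sum_of_subset_of_nonneg (Finset.subset_univ _) fun _ _ _ => by
          positivity
  have h4 : (Bad.card : ℝ) * (δ * 2 ^ n) ≤ 2 ^ n / (4 * δ ^ 2 * n) * (K * Fintype.card Ω) := by
    refine (h3.trans h1).trans ?_
    exact mul_le_mul_of_nonneg_right h2 (by positivity)
  have h5 : (0 : ℝ) < δ * 2 ^ n := by positivity
  have h6 : 2 ^ n / (4 * δ ^ 2 * n) * (K * Fintype.card Ω) =
      K / (4 * δ ^ 3 * n) * Fintype.card Ω * (δ * 2 ^ n) := by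
    field_simp
  rw [h6] at h4
  exact le_of_mul_le_mul_right h4 h5

/-- Part MC, for one Lagrangian. -/
theorem one (hEUL : S_EUL) (S : Submodule F2 (ι → F2 × F2))
    (hq : ∀ l ∈ S, ∑ i, (l i).1 * (l i).2 = 0) (hd : Fintype.card ι ≤ Module.finrank F2 S)
    (hn : 0 < Fintype.card ι) (δ : ℝ) (hδ : 0 < δ)
    (hA : ((Finset.univ.filter fun J => ¬ ∀ l ∈ MJ S J, l ≠ 0 → Ty δ (zs l)).card : ℝ) ≤
      δ * 2 ^ Fintype.card ι) (d : ℕ) :
    |((Finset.univ.filter fun J => Module.finrank F2 (MJ S J) = d).card : ℝ) -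
      Cd d * 2 ^ Fintype.card ι| ≤ 72 * δ * 2 ^ Fintype.card ι := by
  set n := Fintype.card ι with hnn
  set D : Finset ι → ℕ := fun J => Module.finrank F2 (MJ S J) with hD
  set p : ℕ → ℝ := fun d => ((Finset.univ.filter fun J => D J = d).card : ℝ) / 2 ^ n with hp
  have hps : HasSum p 1 := by
    set M := Finset.univ.sup D with hM
    have hle : ∀ J, D J < M + 1 := fun J =>
      Nat.lt_succ_of_le (Finset.le_sup (f := D) (Finset.mem_univ J))
    have h1 : ∑ d ∈ range (M + 1), p d = 1 := by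
      have h2 := Finset.card_eq_sum_card_fiberwise (s := (Finset.univ : Finset (Finset ι)))
        (t := range (M + 1)) (f := D) (fun J _ => by simpa using hle J)
      simp only [hp]
      rw [← Finset.sum_div, div_eq_one_iff_eq (by positivity)]
      rw [Finset.card_univ, Fintype.card_finset] at h2
      have h3 := congrArg (Nat.cast : ℕ → ℝ) h2
      push_cast at h3
      rw [← h3]
    rw [← h1]
    apply hasSum_sum_of_ne_finset_zero
    intro d hd
    simp only [hp]
    rw [div_eq_zero_iff]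
    left
    rw [Nat.cast_eq_zero, Finset.card_eq_zero, Finset.filter_eq_empty_iff]
    intro J _ h
    apply hd
    rw [Finset.mem_range, ← h]
    exact hle J
  have hB := fun N => partB hn D (ZJ S) (fun J i hi => flip_vanish S hq hd J i hi)
    (fun J i hi => flip_nonvanish S hq J i hi) δ hδ.le
    (Finset.univ.filter fun J => ¬ ∀ l ∈ MJ S J, l ≠ 0 → Ty δ (zs l))
    (fun J hJ => typ_dev S J δ hδ.le (by simpa using hJ)) N
  have hC := partC p hps (6 * δ) (fun N => by
    refine (hB N).trans ?_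
    have : ((Finset.univ.filter fun J => ¬ ∀ l ∈ MJ S J, l ≠ 0 → Ty δ (zs l)).card : ℝ) / 2 ^ n ≤
        δ := by
      rw [div_le_iff₀ (by positivity)]; exact hA
    linarith) hEUL d
  have h1 : ((Finset.univ.filter fun J => D J = d).card : ℝ) - Cd d * 2 ^ n =
      (p d - Cd d) * 2 ^ n := by
    simp only [hp]; field_simp
  rw [h1, abs_mul, abs_of_pos (a := (2 : ℝ) ^ n) (by positivity)]
  apply mul_le_mul_of_nonneg_right _ (by positivity)
  linarith

theorem main (hEUL : S_EUL) : S_MC := by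
  intro ε K hε
  set δ : ℝ := ε / 72 with hδdef
  have hδ : 0 < δ := by positivity
  set K' : ℝ := max K 0 with hK'
  have hK'0 : 0 ≤ K' := le_max_right _ _
  refine ⟨⌈K' / (4 * δ ^ 3 * ε)⌉₊ + 1, ?_⟩
  intro ι Ω _ _ hn Λ hq hcard hK
  have hn0 : 0 < Fintype.card ι := by omega
  have hnpos : (0 : ℝ) < Fintype.card ι := by exact_mod_cast hn0
  set S : Ω → Submodule F2 (ι → F2 × F2) := fun ω => AddSubgroup.toZModSubmodule 2 (Λ ω) with hS
  have hmem : ∀ ω l, l ∈ S ω ↔ l ∈ Λ ω := fun ω l => Iff.rfl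
  have hSq : ∀ ω, ∀ l ∈ S ω, ∑ i, (l i).1 * (l i).2 = 0 := hq
  have hSd : ∀ ω, Fintype.card ι ≤ Module.finrank F2 (S ω) := by
    intro ω
    have h1 : Nat.card (S ω) = 2 ^ Module.finrank F2 (S ω) := by
      rw [Module.natCard_eq_pow_finrank (K := F2), Nat.card_zmod]
    have h2 : 2 ^ Fintype.card ι ≤ Nat.card (S ω) := hcard ω
    rw [h1] at h2
    exact (Nat.pow_le_pow_iff_right (by norm_num)).mp h2
  have hSK : ∀ J Z : Finset ι, (2 : ℝ) ^ Fintype.card ι *
      ((Finset.univ.filter fun ω => ∃ l ∈ MJ (S ω) J, l ≠ 0 ∧ zs l = Z).card : ℝ) ≤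
        K' * Fintype.card Ω := by
    intro J Z
    have h1 := hK J Z
    have h2 : Nat.card {ω : Ω // ∃ l ∈ Λ ω, l ∈ LJ J ∧ l ≠ 0 ∧ ∀ i, l i = 0 ↔ i ∈ Z} =
        (Finset.univ.filter fun ω => ∃ l ∈ MJ (S ω) J, l ≠ 0 ∧ zs l = Z).card := by
      rw [Nat.card_eq_fintype_card, Fintype.card_subtype]
      congr 1
      ext ω
      simp only [Finset.mem_filter, Finset.mem_univ, true_and]
      constructor
      · rintro ⟨l, h1, h2, h3, h4⟩
        refine ⟨l, (mem_MJ _ _ _).mpr ⟨h1, h2⟩, h3, ?_⟩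
        ext i; rw [mem_zs]; exact h4 i
      · rintro ⟨l, h1, h3, h4⟩
        refine ⟨l, ((mem_MJ _ _ _).mp h1).1, ((mem_MJ _ _ _).mp h1).2, h3, fun i => ?_⟩
        rw [← h4, mem_zs]
    rw [h2] at h1
    refine h1.trans ?_
    exact mul_le_mul_of_nonneg_right (le_max_left _ _) (by positivity)
  have hM := markov Ω K' δ hδ hK'0 hn0 S hSK
  set Bad := Finset.univ.filter fun ω => δ * 2 ^ Fintype.card ι <
      ((Finset.univ.filter fun J => ¬ ∀ l ∈ MJ (S ω) J, l ≠ 0 → Ty δ (zs l)).card : ℝ) with hBad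
  have hBadle : (Bad.card : ℝ) ≤ ε * Fintype.card Ω := by
    refine hM.trans ?_
    apply mul_le_mul_of_nonneg_right _ (by positivity)
    have h1 : K' / (4 * δ ^ 3 * ε) ≤ Fintype.card ι := by
      have h2 := Nat.le_ceil (K' / (4 * δ ^ 3 * ε))
      have h3 : ((⌈K' / (4 * δ ^ 3 * ε)⌉₊ : ℕ) : ℝ) ≤ Fintype.card ι := by
        exact_mod_cast (by omega : ⌈K' / (4 * δ ^ 3 * ε)⌉₊ ≤ Fintype.card ι)
      linarith
    rw [div_le_iff₀ (by positivity)] at h1 ⊢
    linarith
  have hgood : ∀ ω ∉ Bad, ∀ d : ℕ,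
      |(Nat.card {J : Finset ι // Nat.card {l : ι → ZMod 2 × ZMod 2 // l ∈ Λ ω ∧ l ∈ LJ J} =
        2 ^ d} : ℝ) - Cd d * 2 ^ Fintype.card ι| ≤ ε * 2 ^ Fintype.card ι := by
    intro ω hω d
    have h1 := one hEUL (S ω) (hSq ω) (hSd ω) hn0 δ hδ (by
      simp only [hBad, Finset.mem_filter, Finset.mem_univ, true_and, not_lt] at hω
      exact hω) d
    have h2 : Nat.card {J : Finset ι // Nat.card {l : ι → ZMod 2 × ZMod 2 // l ∈ Λ ω ∧ l ∈ LJ J} =
        2 ^ d} = (Finset.univ.filter fun J => Module.finrank F2 (MJ (S ω) J) = d).card := by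
      rw [Nat.card_eq_fintype_card, Fintype.card_subtype]
      congr 1
      ext J
      simp only [Finset.mem_filter, Finset.mem_univ, true_and]
      have h3 : Nat.card {l : ι → ZMod 2 × ZMod 2 // l ∈ Λ ω ∧ l ∈ LJ J} =
          2 ^ Module.finrank F2 (MJ (S ω) J) := by
        have h4 : Nat.card (MJ (S ω) J) = 2 ^ Module.finrank F2 (MJ (S ω) J) := by
          rw [Module.natCard_eq_pow_finrank (K := F2), Nat.card_zmod]
        rw [← h4]
        exact Nat.card_congr (Equiv.subtypeEquivRight fun l => (mem_MJ (S ω) J l).symm)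
      rw [h3]
      exact ⟨fun h => Nat.pow_right_injective (le_refl 2) h, fun h => by rw [h]⟩
    rw [h2]
    refine h1.trans (le_of_eq ?_)
    simp only [hδdef]; ring
  have hfin : (Badᶜ.card : ℝ) ≤ (Nat.card {ω : Ω // ∀ d : ℕ,
      |(Nat.card {J : Finset ι // Nat.card {l : ι → ZMod 2 × ZMod 2 // l ∈ Λ ω ∧ l ∈ LJ J} =
        2 ^ d} : ℝ) - Cd d * 2 ^ Fintype.card ι| ≤ ε * 2 ^ Fintype.card ι} : ℝ) := by
    rw [Nat.card_eq_fintype_card, Fintype.card_subtype]
    have := Finset.card_le_card (s := Badᶜ) (t := Finset.univ.filter fun ω => ∀ d : ℕ,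
      |(Nat.card {J : Finset ι // Nat.card {l : ι → ZMod 2 × ZMod 2 // l ∈ Λ ω ∧ l ∈ LJ J} =
        2 ^ d} : ℝ) - Cd d * 2 ^ Fintype.card ι| ≤ ε * 2 ^ Fintype.card ι) (by
      intro ω hω
      rw [Finset.mem_compl] at hω
      simp only [Finset.mem_filter, Finset.mem_univ, true_and]
      exact hgood ω hω)
    exact_mod_cast this
  refine le_trans ?_ hfin
  rw [Finset.card_compl, Nat.cast_sub (Finset.card_le_univ _)]
  linarith

end

end Pool.Agent.H72.PR.MC
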